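import Pool.Agent.helper38.NullSeriesMeasure

/-!
# Pairing a null trigonometric series with a measure on its null set (MP_807847_an)

A counterexample to Q1 with an atomic measure on a countable closed set: the pairing
`∑ μ̂(n) a_{-n}` can have every value.
-/

set_option autoImplicit false

open MeasureTheory Filter Topology Real
open scoped ENNReal

namespace Pool.Agent.Results.MP_807847_an.CountableSet

/-- The circle `ℝ / 2πℤ`. -/
abbrev Circ : Type := AddCircle (2 * π)

/-- The Fourier coefficient `∫ e^{-int} dμ(t)`. -/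
noncomputable def coeff (μ : Measure Circ) (n : ℤ) : ℂ := ∫ t, fourier (-n) t ∂μ

/-- The symmetric partial sum `∑_{|n| ≤ N} a_n e^{int}`. -/
noncomputable def partialSum (a : ℤ → ℂ) (N : ℕ) (t : Circ) : ℂ :=
  ∑ n ∈ Finset.Icc (-(N : ℤ)) (N : ℤ), a n * fourier n t

/-- The hypotheses (H) of the problem. -/
structure Hyp (a : ℤ → ℂ) (F : Set Circ) (μ : Measure Circ) : Prop where
  closed : IsClosed F
  coeff_zero : Tendsto a cofinite (𝓝 0)
  null : ∀ t ∈ F, Tendsto (fun N => partialSum a N t) atTop (𝓝 0)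
  finite : IsFiniteMeasure μ
  carried : μ Fᶜ = 0
  summable : Summable fun n : ℤ => ‖coeff μ n‖ * ‖a (-n)‖

open Pool.Agent.helper38.NullSeries

theorem partial_sum_eq (α : ℕ → ℝ) (h0 : α 0 = 0) (f : ℤ → ℂ) (c : ℕ → ℝ)
    (hf : ∀ n : ℕ, f n + f (-(n:ℤ)) = ((2 * c n : ℝ) : ℂ)) (N : ℕ) :
    ∑ n ∈ Finset.Icc (-(N : ℤ)) (N : ℤ), ((α n.natAbs : ℝ) : ℂ) * f n =
      ((2 * ∑ n ∈ Finset.range (N + 1), α n * c n : ℝ) : ℂ) := by
  induction N with
  | zero => simp [h0]
  | succ N ih =>
    have h1 : Finset.Icc (-((N + 1 : ℕ) : ℤ)) ((N + 1 : ℕ) : ℤ) =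
        insert (-((N + 1 : ℕ) : ℤ)) (insert ((N + 1 : ℕ) : ℤ) (Finset.Icc (-(N : ℤ)) (N : ℤ))) := by
      ext x
      simp only [Finset.mem_Icc, Finset.mem_insert]
      push_cast
      omega
    rw [h1, Finset.sum_insert, Finset.sum_insert, ih, Finset.sum_range_succ _ (N + 1)]
    · have h2 := hf (N + 1)
      have h3 : (-((N + 1 : ℕ) : ℤ)).natAbs = N + 1 := by omega
      have h4 : (((N + 1 : ℕ) : ℤ)).natAbs = N + 1 := by omega
      rw [h3, h4, ← add_assoc, ← mul_add, add_comm (f _) (f _), h2]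
      push_cast
      ring
    · simp
    · simp only [Finset.mem_insert, Finset.mem_Icc]
      push_cast
      omega

/-- The set `{0} ∪ {t_j} ∪ {-t_j}`. -/
def pts (t : ℕ → Circ) : Set Circ := {0} ∪ Set.range t ∪ Set.range (fun j => -t j)

/-- The measure `∑ 2^{-j} (δ_{t_j} + δ_{-t_j})`. -/
noncomputable def atoms (t : ℕ → Circ) : Measure Circ :=
  Measure.sum fun j : ℕ => ((2 : ℝ≥0∞)⁻¹ ^ j) • (Measure.dirac (t j) + Measure.dirac (-t j))

/-- There are a sequence `t_j → 0` on the circle and real numbers `b_n → 0` such that, with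
`F = {0} ∪ {t_j} ∪ {-t_j}` and `μ = ∑ 2^{-j} (δ_{t_j} + δ_{-t_j})`, for every complex number `s`
the coefficients `a_n = s b_{|n|}` satisfy (H) together with `F` and `μ`, but
`∑ μ̂(n) a_{-n} = s`. -/
theorem result : ∃ (t : ℕ → Circ) (b : ℕ → ℝ),
    Tendsto t atTop (𝓝 0) ∧ Tendsto b atTop (𝓝 0) ∧ ∀ s : ℂ,
      Hyp (fun n => s * (b n.natAbs : ℂ)) (pts t) (atoms t) ∧
      HasSum (fun n : ℤ => coeff (atoms t) n * (s * (b (-n).natAbs : ℂ))) s := by
  obtain ⟨α', hα0', hαt', hsum0', hsumj', hsummable', hne⟩ := main_sequence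
  -- normalise
  set T : ℝ := ∑' n, α' n * mm n with hT
  let α : ℕ → ℝ := fun n => (4 * T)⁻¹ * α' n
  have hα0 : α 0 = 0 := by simp only [α, hα0', mul_zero]
  have hαt : Tendsto α atTop (𝓝 0) := by
    have h := hαt'.const_mul (4 * T)⁻¹
    rwa [mul_zero] at h
  have hsum0 : Tendsto (fun N => ∑ n ∈ Finset.range N, α n) atTop (𝓝 0) := by
    have := hsum0'.const_mul (4 * T)⁻¹
    simpa [α, Finset.mul_sum] using this
  have hsumj : ∀ j, Tendsto (fun N => ∑ n ∈ Finset.range N, α n * Real.cos (n * tt j))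
      atTop (𝓝 0) := by
    intro j
    have := (hsumj' j).const_mul (4 * T)⁻¹
    simpa [α, Finset.mul_sum, mul_assoc] using this
  have hsummable : Summable (fun n => |α n| * |mm n|) := by
    have := hsummable'.mul_left |(4 * T)⁻¹|
    refine this.congr fun n => ?_
    simp only [α, abs_mul, mul_assoc]
  have hs : HasSum (fun n : ℕ => α n * mm n) (1 / 4) := by
    have h0 : Summable (fun n : ℕ => α' n * mm n) := by
      apply Summable.of_norm
      refine hsummable'.congr (fun n => ?_)
      rw [Real.norm_eq_abs, abs_mul]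
    have h1 := h0.hasSum.mul_left (4 * T)⁻¹
    have h2 : (4 * T)⁻¹ * T = 1 / 4 := by
      rw [mul_inv, mul_assoc, inv_mul_cancel₀ hne]
      norm_num
    rw [← hT, h2] at h1
    have h3 : (fun n : ℕ => α n * mm n) = fun n : ℕ => (4 * T)⁻¹ * (α' n * mm n) := by
      funext n
      simp only [α, mul_assoc]
    rw [h3]
    exact h1
  have hZ : HasSum (fun n : ℤ => (2 * (α n.natAbs * mm n.natAbs) : ℝ)) 1 := by
    have h1 : HasSum (fun n : ℕ => (2 * (α n * mm n) : ℝ)) (1 / 2) := by
      have h2 := hs.mul_left 2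
      have h3 : (2 : ℝ) * (1 / 4) = 1 / 2 := by norm_num
      rwa [h3] at h2
    have h2 : HasSum (fun n : ℕ => (2 * (α ((n : ℤ)).natAbs * mm ((n : ℤ)).natAbs) : ℝ))
        (1 / 2) := by simpa only [Int.natAbs_natCast] using h1
    have h3 : HasSum (fun n : ℕ => (2 * (α ((-(n : ℤ))).natAbs * mm ((-(n : ℤ))).natAbs) : ℝ))
        (1 / 2) := by simpa only [Int.natAbs_neg, Int.natAbs_natCast] using h1
    have h4 := HasSum.of_nat_of_neg (f := fun n : ℤ => (2 * (α n.natAbs * mm n.natAbs) : ℝ)) h2 h3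
    have h5 : (1 / 2 + 1 / 2 - (2 * (α (0 : ℤ).natAbs * mm (0 : ℤ).natAbs)) : ℝ) = 1 := by
      rw [Int.natAbs_zero, hα0]
      norm_num
    rwa [h5] at h4
  have hF : ({0} ∪ Set.range TT ∪ Set.range (fun j => -TT j) : Set Circ) = FF := by
    ext x
    simp only [FF, Set.mem_union, Set.mem_singleton_iff, Set.mem_insert_iff]
    tauto
  refine ⟨TT, α, TT_tendsto, hαt, fun s => ?_⟩
  change Hyp (fun n => s * (α n.natAbs : ℂ))
      ({0} ∪ Set.range TT ∪ Set.range (fun j => -TT j) : Set Circ) mu ∧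
    HasSum (fun n : ℤ => coeff mu n * (s * (α (-n).natAbs : ℂ))) s
  have hcoeff : ∀ n : ℤ, coeff mu n = ((2 * mm n.natAbs : ℝ) : ℂ) := by
    intro n
    rw [coeff, integral_mu, Int.natAbs_neg]
  refine ⟨?_, ?_⟩
  · rw [hF]
    refine ⟨FF_closed, ?_, ?_, inferInstance, mu_compl, ?_⟩
    · -- coefficients tend to zero
      have h1 : Tendsto Int.natAbs cofinite atTop := by
        rw [← Nat.cofinite_eq_atTop]
        apply Tendsto.cofinite_of_finite_preimage_singleton
        intro b
        apply Set.Finite.subset (Set.finite_Icc (-(b : ℤ)) b)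
        intro x hx
        simp only [Set.mem_preimage, Set.mem_singleton_iff] at hx
        rw [Set.mem_Icc]
        omega
      have h2 := hαt.comp h1
      have h3 := (Complex.continuous_ofReal.tendsto 0).comp h2
      have h4 := h3.const_mul s
      simpa [Function.comp_def] using h4
    · -- pointwise convergence
      have hgen : ∀ (t : Circ) (c : ℕ → ℝ),
          (∀ n : ℕ, (fourier (n : ℤ) t : ℂ) + fourier (-(n : ℤ)) t = ((2 * c n : ℝ) : ℂ)) →
          Tendsto (fun N => ∑ n ∈ Finset.range N, α n * c n) atTop (𝓝 0) →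
          Tendsto (fun N => partialSum (fun n => s * (α n.natAbs : ℂ)) N t) atTop (𝓝 0) := by
        intro t c hc hlim
        have h1 : (fun N : ℕ => partialSum (fun n => s * (α n.natAbs : ℂ)) N t) =
            fun N : ℕ => s * ((2 * ∑ n ∈ Finset.range (N + 1), α n * c n : ℝ) : ℂ) := by
          funext N
          rw [← partial_sum_eq α hα0 (fun n => fourier n t) c hc N, partialSum, Finset.mul_sum]
          exact Finset.sum_congr rfl fun n _ => mul_assoc _ _ _
        rw [h1]
        have h2 := ((hlim.comp (tendsto_add_atTop_nat 1)).const_mul 2)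
        have h3 := ((Complex.continuous_ofReal.tendsto _).comp h2).const_mul s
        simpa [Function.comp_def] using h3
      intro t ht
      have hcase : t = 0 ∨ (∃ j, t = TT j) ∨ (∃ j, t = - TT j) := by
        rcases ht with h | h
        · rcases h with h | ⟨j, hj⟩
          · exact Or.inl h
          · exact Or.inr (Or.inl ⟨j, hj.symm⟩)
        · rcases h with h | ⟨j, hj⟩
          · exact Or.inl h
          · exact Or.inr (Or.inr ⟨j, hj.symm⟩)
      rcases hcase with rfl | ⟨j, rfl⟩ | ⟨j, rfl⟩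
      · apply hgen 0 (fun _ => 1)
        · intro n
          rw [fourier_eval_zero, fourier_eval_zero]; norm_num
        · simpa using hsum0
      · apply hgen (TT j) (fun n => Real.cos (n * tt j))
        · intro n
          have h1 := fourier_add_TT (n : ℤ) j
          have h2 : (fourier (-(n : ℤ)) (TT j) : ℂ) = fourier (n : ℤ) (- TT j) := by
            rw [fourier_TT, fourier_neg_TT]; congr 1; push_cast; ring
          rw [h2, h1]; push_cast; rfl
        · exact hsumj j
      · apply hgen (- TT j) (fun n => Real.cos (n * tt j))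
        · intro n
          have h1 := fourier_add_TT (n : ℤ) j
          have h2 : (fourier (-(n : ℤ)) (- TT j) : ℂ) = fourier (n : ℤ) (TT j) := by
            rw [fourier_TT, fourier_neg_TT]; congr 1; push_cast; ring
          rw [h2, add_comm, h1]; push_cast; rfl
        · exact hsumj j
    · -- summability
      have hterm : ∀ n : ℤ, ‖coeff mu n‖ * ‖s * ((α (-n).natAbs : ℝ) : ℂ)‖ =
          2 * ‖s‖ * (|α n.natAbs| * |mm n.natAbs|) := by
        intro n
        rw [hcoeff, Int.natAbs_neg, norm_mul, Complex.norm_real, Complex.norm_real,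
          Real.norm_eq_abs, Real.norm_eq_abs, abs_mul, abs_of_pos (by norm_num : (0 : ℝ) < 2)]
        ring
      have h2 : Summable (fun n : ℤ => 2 * ‖s‖ * (|α n.natAbs| * |mm n.natAbs|)) := by
        apply Summable.of_nat_of_neg
        · simpa using hsummable.mul_left (2 * ‖s‖)
        · simpa using hsummable.mul_left (2 * ‖s‖)
      exact h2.congr fun n => (hterm n).symm
  · have hC : HasSum (fun n : ℤ => ((2 * (α n.natAbs * mm n.natAbs) : ℝ) : ℂ)) ((1 : ℝ) : ℂ) :=
      Complex.hasSum_ofReal.2 hZ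
    have e : (fun n : ℤ => coeff mu n * (s * (α (-n).natAbs : ℂ))) =
        fun n : ℤ => s * ((2 * (α n.natAbs * mm n.natAbs) : ℝ) : ℂ) := by
      funext n
      rw [hcoeff, Int.natAbs_neg]
      push_cast
      ring
    rw [e]
    simpa using hC.mul_left s

end Pool.Agent.Results.MP_807847_an.CountableSet
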